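import Pool.Agent.R868.Stab.Stable

/-!
# MP_476b05_co, Q1: positive answer

For all large `k` the only tight `(k, 0)`-stable graphs are `K_{k+1}` and `K_{k+2}`.
-/

set_option autoImplicit false

namespace Pool.Agent.Results.MP_476b05_co.TightLarge

open R868.Stab Finset

/-- A `(k, 0)`-stable graph on `n` vertices with independence number `⌊(n - k + 1) / 2⌋`. -/
def TightStable {V : Type} [Fintype V] (k : ℕ) (G : SimpleGraph V) : Prop :=
  KLStable k 0 G ∧ (G.indepNum : ℤ) = ((Fintype.card V : ℤ) - (k : ℤ) + 1) / 2

theorem complete_iso {V : Type} [Fintype V] (G : SimpleGraph V) (m : ℕ)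
    (hm : Fintype.card V = m) (h : ∀ p q : V, p ≠ q → G.Adj p q) :
    Nonempty (G ≃g (⊤ : SimpleGraph (Fin m))) := by
  have e := Fintype.equivFinOfCardEq hm
  refine ⟨⟨e, ?_⟩⟩
  intro p q
  rw [SimpleGraph.top_adj]
  constructor
  · intro hne
    exact h p q (fun h' => hne (by rw [h']))
  · intro hadj h'
    exact hadj.ne (e.injective h')

/-- There is `k₀` such that for every `k ≥ k₀` every tight `(k, 0)`-stable graph is isomorphic
to `K_{k+1}` or `K_{k+2}`. -/
theorem result : ∃ k₀ : ℕ, 0 < k₀ ∧ ∀ k : ℕ, k₀ ≤ k → ∀ (V : Type) [Fintype V]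
    (G : SimpleGraph V), TightStable k G →
      Nonempty (G ≃g (⊤ : SimpleGraph (Fin (k + 1)))) ∨
      Nonempty (G ≃g (⊤ : SimpleGraph (Fin (k + 2)))) := by
  classical
  obtain ⟨N, hN⟩ := stable_bound 3
  obtain ⟨r, hr⟩ := Pool.Agent.H430R3.SW.ramsey (α := Bool) (2 * N + 2)
  refine ⟨r + 3, by omega, ?_⟩
  intro k hk V _ G hG
  obtain ⟨hst, htight⟩ := hG
  set n := Fintype.card V with hn
  set a := G.indepNum with ha
  -- the graph is not empty
  have hn0 : 0 < n := by
    rcases Nat.eq_zero_or_pos n with h0 | h0
    · exfalso
      rw [h0] at htight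
      omega
    · exact h0
  have ha1 : 1 ≤ a := by
    obtain ⟨v⟩ : Nonempty V := Fintype.card_pos_iff.mp hn0
    have h1 := ind_card_le G {v} (by
      intro p hp q hq hpq
      rw [mem_singleton] at hp hq
      rw [hp, hq] at hpq
      exact G.irrefl hpq)
    simpa using h1
  have hn2 : n + 1 = 2 * a + k ∨ n = 2 * a + k := by omega
  have hkn : k ≤ n := by omega
  -- the independence number is bounded
  have haN : a ≤ N := by
    obtain ⟨S0, _, hS0⟩ := exists_subset_card_eq
      (s := (univ : Finset V)) (n := k - 3) (by rw [card_univ]; omega)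
    have hcW : Fintype.card {v : V // v ∉ S0} = n - (k - 3) := by
      rw [Fintype.card_subtype_compl, Fintype.card_coe, hS0]
    have h5 := hN {v : V // v ∉ S0} (G.comap (Subtype.val)) a ?_ ?_ ?_
    · omega
    · intro I hI
      have h6 := ind_card_le G (I.map (Function.Embedding.subtype _)) ?_
      · rwa [card_map] at h6
      · intro p hp q hq hpq
        rw [mem_map] at hp hq
        obtain ⟨p', hp', rfl⟩ := hp
        obtain ⟨q', hq', rfl⟩ := hq
        exact hI p' hp' q' hq' hpq
    · intro S hS
      obtain ⟨I, hI, hIa, hd⟩ := hst.avoid hkn (S0 ∪ S.map (Function.Embedding.subtype _))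
        (by
          have h7 := card_union_le S0 (S.map (Function.Embedding.subtype _))
          rw [card_map] at h7
          omega)
      rw [disjoint_union_right] at hd
      refine ⟨I.subtype (fun v => v ∉ S0), ?_, ?_, ?_⟩
      · intro p hp q hq hpq
        rw [mem_subtype] at hp hq
        exact hI _ hp _ hq hpq
      · rw [card_subtype, filter_true_of_mem, hIa]
        intro z hz
        exact disjoint_left.mp hd.1 hz
      · rw [disjoint_left]
        intro z hz hzS
        rw [mem_subtype] at hz
        exact disjoint_left.mp hd.2 hz (mem_map.mpr ⟨z, hzS, rfl⟩)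
    · rw [hcW]
      omega
  -- the independence number is one
  have ha_one : a = 1 := by
    by_contra hne
    have ha2 : 2 ≤ a := by omega
    let e := Fintype.equivFin V
    obtain ⟨v0⟩ : Nonempty V := Fintype.card_pos_iff.mp hn0
    let f : ℕ → V := fun i => if h : i < n then e.symm ⟨i, h⟩ else v0
    have hf : ∀ i j, i < n → j < n → f i = f j → i = j := by
      intro i j hi hj hij
      simp only [f, hi, hj, dif_pos] at hij
      simpa using e.symm.injective hij
    obtain ⟨g, hgm, hgr, col, hcol⟩ := hr (fun i j => decide (G.Adj (f i) (f j)))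
    have hgn : ∀ i, g i < n := fun i => by
      have := hgr i
      omega
    have hinj : Function.Injective (fun i => f (g i)) := by
      intro i j hij
      exact hgm.injective (hf _ _ (hgn i) (hgn j) hij)
    -- the homogeneous set
    set Q := (univ : Finset (Fin (2 * N + 2))).image (fun i => f (g i)) with hQ
    have hQc : Q.card = 2 * N + 2 := by
      rw [hQ, card_image_of_injective _ hinj, card_univ, Fintype.card_fin]
    cases col with
    | false =>
      have h6 := ind_card_le G Q (by
        intro p hp q hq hpq
        rw [hQ, mem_image] at hp hq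
        obtain ⟨i, _, rfl⟩ := hp
        obtain ⟨j, _, rfl⟩ := hq
        rcases lt_trichotomy i j with h | h | h
        · have := hcol i j h
          simp only [decide_eq_false_iff_not] at this
          exact this hpq
        · rw [h] at hpq
          exact G.irrefl hpq
        · have := hcol j i h
          simp only [decide_eq_false_iff_not] at this
          exact this hpq.symm)
      omega
    | true =>
      have hcl : ∀ p ∈ Q, ∀ q ∈ Q, p ≠ q → G.Adj p q := by
        intro p hp q hq hpq
        rw [hQ, mem_image] at hp hq
        obtain ⟨i, _, rfl⟩ := hp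
        obtain ⟨j, _, rfl⟩ := hq
        rcases lt_trichotomy i j with h | h | h
        · have := hcol i j h
          simpa using this
        · exact absurd (by rw [h]) hpq
        · have := hcol j i h
          simp only [decide_eq_true_eq] at this
          exact this.symm
      obtain ⟨Q', hQ', hQ'c⟩ := exists_subset_card_eq (s := Q) (n := n - k) (by omega)
      obtain ⟨I, hI, hIa, hd⟩ := hst.avoid hkn Q'ᶜ (by
        rw [card_compl, hQ'c]
        omega)
      have h7 : 1 < I.card := by omega
      obtain ⟨p, hp, q, hq, hpq⟩ := one_lt_card.mp h7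
      have hmem : ∀ z ∈ I, z ∈ Q := by
        intro z hz
        have := disjoint_left.mp hd hz
        rw [mem_compl, not_not] at this
        exact hQ' this
      exact hI p hp q hq (hcl p (hmem p hp) q (hmem q hq) hpq)
  have hcomp : ∀ p q : V, p ≠ q → G.Adj p q := by
    intro p q hpq
    by_contra hnadj
    have h6 := ind_card_le G {p, q} (by
      intro x hx y hy hxy
      simp only [mem_insert, mem_singleton] at hx hy
      rcases hx with rfl | rfl <;> rcases hy with rfl | rfl
      · exact G.irrefl hxy
      · exact hnadj hxy
      · exact hnadj hxy.symm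
      · exact G.irrefl hxy)
    rw [card_pair hpq] at h6
    omega
  rcases hn2 with h | h
  · exact Or.inl (complete_iso G (k + 1) (by omega) hcomp)
  · exact Or.inr (complete_iso G (k + 2) (by omega) hcomp)

end Pool.Agent.Results.MP_476b05_co.TightLarge
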